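import Pool.Agent.H596Z.Roe.Final

set_option autoImplicit false

namespace Pool.Agent.Results.MP_ab5103_an.ANoRankCut

open Pool.Agent.H596Z.RoeD

theorem result : ∃ (X Y H K : Type) (_ : MetricSpace X) (_ : MetricSpace Y)
    (_ : NormedAddCommGroup H) (_ : InnerProductSpace ℂ H) (_ : CompleteSpace H)
    (_ : NormedAddCommGroup K) (_ : InnerProductSpace ℂ K) (_ : CompleteSpace K)
    (δ : HilbertBasis X ℂ H) (ε : HilbertBasis Y ℂ K),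
    ULF X ∧ ULF Y ∧ PropertyA Y ∧
    ∃ Φ : (H →L[ℂ] H) → (K →L[ℂ] K),
      IsEmbedding (Roe δ) (Roe ε) Φ ∧ ¬ HasRankCut (Roe δ) (Roe ε) Φ := by
  obtain ⟨X, Y, mX, mY, h1, h2, h3, Φ, h4, h5⟩ := Pool.Agent.H596Z.Roe.main2
  obtain ⟨δ, hδ⟩ := Pool.Agent.H596Z.Roe.exists_basis X
  obtain ⟨ε, hε⟩ := Pool.Agent.H596Z.Roe.exists_basis Y
  refine ⟨X, Y, _, _, mX, mY, _, _, inferInstance, _, _, inferInstance, δ, ε, h1, h2, h3, Φ, ?_⟩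
  rw [hδ, hε]
  exact ⟨h4, fun ⟨p, hp, hp', hc, h⟩ => (h5 p hp hp' hc).1 h⟩

end Pool.Agent.Results.MP_ab5103_an.ANoRankCut
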